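import Pool.Agent.Y843.AC.GoldPr
import Pool.Agent.Y840.CT.Gen

/-!
# Narrow progressions of representations of every even number as a sum of two primes

`N` is an even number, `H` the length of a window `(y, y + H] ⊆ (0, N]`, and `S` an arbitrary set of
summands `p` in this window with `p` and `N - p` prime (or without prime factors `≤ N ^ (1/u)`). The expected
order of the number of all such `p` is `H d` with `d = dens N = N / (φ(N) log² N)`, and the expected order of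
the number of progressions of `k` such `p` with differences `≤ D` is `H D d ^ k`. Differences as small as a
power of `log N` and windows as short as `N ^ θ` are allowed.

The proof uses the counting form of Szemeredi's theorem relative to sifted sets with narrow progressions and
Chen's theorem in intervals, both of the starting library.
-/

set_option autoImplicit false

open Finset Filter

namespace Pool.Agent.Results.MP_7b7e48_nt.NarrowProgressions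

/-- The expected density `N / (φ(N) log² N)` of the representations. -/
noncomputable def dens (N : ℕ) : ℝ := N / (N.totient * Real.log N ^ 2)

open Classical in
/-- The number of the progressions `a, a + d, …, a + (k - 1) d` in `S` with `1 ≤ d ≤ D`. -/
noncomputable def AP (k D : ℕ) (S : Finset ℕ) : ℕ :=
  ((S ×ˢ Icc 1 D).filter (fun q => ∀ j < k, q.1 + j * q.2 ∈ S)).card

open Classical in
/-- The elements of `S` which lie in no progression of `k` elements of `S` with a difference in `[1, D]`. -/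
noncomputable def outside (k : ℕ) (D : ℝ) (S : Finset ℕ) : Finset ℕ :=
  S.filter (fun n => ¬ ∃ a d : ℕ, 1 ≤ d ∧ (d : ℝ) ≤ D ∧ (∀ j < k, a + j * d ∈ S) ∧ ∃ j < k, n = a + j * d)

/-- `m` and `N - m` are primes, or none of them has a prime factor `≤ N ^ (1/u)`. -/
def Rep (u N m : ℕ) : Prop := (m.Prime ∧ (N - m).Prime) ∨
  ∀ q : ℕ, q.Prime → (q : ℝ) ≤ (N : ℝ) ^ (1 / (u : ℝ)) → ¬ q ∣ m ∧ ¬ q ∣ N - m

/-- `S` is a set of such `m` in the window `(y, y + H] ⊆ (0, N]`. -/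
def Reps (u N y H : ℕ) (S : Finset ℕ) : Prop := y + H ≤ N ∧ ∀ m ∈ S, y < m ∧ m ≤ y + H ∧ Rep u N m

open Classical in
/-- The primes `p > N ^ (1/9)` in `(y, y + H]`, `p < N`, for which `N - p` is a product of at most two primes,
all of them larger than `N ^ (1/9)`. -/
noncomputable def Chen (N y H : ℕ) : Finset ℕ :=
  (Ioc y (y + H)).filter (fun p : ℕ => p.Prime ∧ (N : ℝ) ^ (1 / 9 : ℝ) < p ∧ p < N ∧
    (N - p).primeFactorsList.length ≤ 2 ∧ ∀ q : ℕ, q.Prime → q ∣ N - p → (N : ℝ) ^ (1 / 9 : ℝ) < q)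

lemma AP_eq (k D : ℕ) (S : Finset ℕ) : AP k D S = (Pool.Agent.Y843.AC.APs k D S).card := rfl

lemma dens_eq (N : ℕ) : dens N = Pool.Agent.Y843.AC.dg N := rfl

lemma outside_eq (k : ℕ) (D : ℝ) (S : Finset ℕ) : outside k D S = Pool.Agent.Y843.HG.Iso k D S := rfl

lemma dvd_sub_iff {N m q : ℕ} (h : m ≤ N) : q ∣ N - m ↔ N % q = m % q := by
  rw [← Nat.modEq_iff_dvd' h]
  constructor
  · intro h1
    exact h1.symm
  · intro h1
    exact h1.symm

lemma rough {u N m : ℕ} (hm : m ≤ N)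
    (h : ∀ q : ℕ, q.Prime → (q : ℝ) ≤ (N : ℝ) ^ (1 / (u : ℝ)) → ¬ q ∣ m ∧ ¬ q ∣ N - m) :
    Pool.Agent.Y843.HG.RoughRep u N m := by
  intro p hp hpN
  obtain ⟨h1, h2⟩ := h p hp hpN
  exact ⟨h1, fun h3 => h2 ((dvd_sub_iff hm).2 h3)⟩

lemma rep {u N m : ℕ} (hm : m ≤ N) (h : Rep u N m) : Pool.Agent.Y843.AC.Rep u N m := by
  rcases h with h | h
  · exact Or.inl h
  · exact Or.inr (rough hm h)

lemma reps {u N y H : ℕ} {S : Finset ℕ} (h : Reps u N y H S) :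
    S ⊆ Ioc y (y + H) ∧ ∀ m ∈ S, Pool.Agent.Y843.AC.Rep u N m := by
  constructor
  · intro m hm
    rw [mem_Ioc]
    exact ⟨(h.2 m hm).1, (h.2 m hm).2.1⟩
  · intro m hm
    exact rep ((h.2 m hm).2.1.trans h.1) (h.2 m hm).2.2

/-- almost all elements -/
theorem almost_all (k : ℕ) (hk : 1 ≤ k) (u : ℕ) (hu : 1 ≤ u) (θ ε : ℝ) (hθ : 0 < θ) (hε : 0 < ε) :
    ∃ B N₀ : ℕ, ∀ N : ℕ, N₀ ≤ N → Even N → ∀ y H : ℕ, (N : ℝ) ^ θ ≤ H → ∀ S : Finset ℕ,
      Reps u N y H S → ((outside k (Real.log N ^ B) S).card : ℝ) ≤ ε * (H * dens N) := by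
  classical
  obtain ⟨B₁, n₁, h1⟩ := Pool.Agent.Y843.HG.gold_primes hk hθ (half_pos hε)
  obtain ⟨B₂, n₂, h2⟩ := Pool.Agent.Y843.HG.gold hk u hu hθ (half_pos hε)
  refine ⟨max B₁ B₂, max (max n₁ n₂) 3, ?_⟩
  intro N hN hev y H hH S hS
  have hN1 : n₁ ≤ N := (le_max_left _ _).trans ((le_max_left _ _).trans hN)
  have hN2 : n₂ ≤ N := (le_max_right _ _).trans ((le_max_left _ _).trans hN)
  have hN3 : 3 ≤ N := (le_max_right _ _).trans hN
  obtain ⟨hS1, -⟩ := reps hS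
  have hlog : 1 ≤ Real.log N := by
    have h3 : Real.exp 1 ≤ N := by
      have h4 : (3 : ℝ) ≤ N := by exact_mod_cast hN3
      have := Real.exp_one_lt_d9
      linarith
    have := Real.log_le_log (Real.exp_pos 1) h3
    rwa [Real.log_exp] at this
  set P := S.filter (fun m => m.Prime ∧ (N - m).Prime) with hP
  set Q := S.filter (fun m => ¬ (m.Prime ∧ (N - m).Prime)) with hQ
  have hPS : P ⊆ S := filter_subset _ _
  have hQS : Q ⊆ S := filter_subset _ _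
  have e1 := h1 N hN1 hev y H hH hS.1 P (hPS.trans hS1) (by
    intro p hp
    rw [hP, mem_filter] at hp
    exact hp.2)
  have e2 := h2 N hN2 hev y H hH (by have := hS.1; omega) Q (hQS.trans hS1) (by
    intro m hm
    rw [hQ, mem_filter] at hm
    have h3 := hS.2 m hm.1
    rcases h3.2.2 with h4 | h4
    · exact absurd h4 hm.2
    · exact rough (h3.2.1.trans hS.1) h4)
  have hB1 : Real.log N ^ B₁ ≤ Real.log N ^ max B₁ B₂ := pow_le_pow_right₀ hlog (le_max_left _ _)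
  have hB2 : Real.log N ^ B₂ ≤ Real.log N ^ max B₁ B₂ := pow_le_pow_right₀ hlog (le_max_right _ _)
  have hsub : outside k (Real.log N ^ max B₁ B₂) S ⊆
      Pool.Agent.Y843.HG.Iso k (Real.log N ^ B₁) P ∪ Pool.Agent.Y843.HG.Iso k (Real.log N ^ B₂) Q := by
    rw [outside_eq]
    intro m hm
    unfold Pool.Agent.Y843.HG.Iso at hm ⊢
    rw [mem_filter] at hm
    refine mem_union.2 ?_
    by_cases h3 : m.Prime ∧ (N - m).Prime
    · exact Or.inl (mem_filter.2 ⟨mem_filter.2 ⟨hm.1, h3⟩, fun h4 => hm.2 (h4.mono hB1 hPS)⟩)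
    · exact Or.inr (mem_filter.2 ⟨mem_filter.2 ⟨hm.1, h3⟩, fun h4 => hm.2 (h4.mono hB2 hQS)⟩)
  have h5 : ((outside k (Real.log N ^ max B₁ B₂) S).card : ℝ) ≤
      ((Pool.Agent.Y843.HG.Iso k (Real.log N ^ B₁) P).card : ℝ) +
        (Pool.Agent.Y843.HG.Iso k (Real.log N ^ B₂) Q).card := by
    exact_mod_cast (card_le_card hsub).trans (card_union_le _ _)
  have h6 : ε * (H * dens N) = ε / 2 * (H * (N / (N.totient * Real.log N ^ 2))) +
      ε / 2 * (H * (N / (N.totient * Real.log N ^ 2))) := by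
    unfold dens
    ring
  rw [h6]
  linarith

theorem up (k : ℕ) (hk : 1 ≤ k) (u : ℕ) (hu : 1 ≤ u) (θ : ℝ) (hθ : 0 < θ) :
    ∃ C : ℝ, 0 < C ∧ ∃ B N₀ : ℕ, ∀ N : ℕ, N₀ ≤ N → Even N → ∀ y H D : ℕ, (N : ℝ) ^ θ ≤ H →
      Real.log N ^ B ≤ D → ∀ S : Finset ℕ, Reps u N y H S → (AP k D S : ℝ) ≤ C * (H * D * dens N ^ k) := by
  obtain ⟨C, hC, B, n₀, h⟩ := Pool.Agent.Y843.AC.rep_up k u hk hu hθ
  refine ⟨C, hC, B, n₀, ?_⟩
  intro N hN hev y H D hH hD S hS
  exact h N hN hev y H D hH hS.1 hD S (reps hS).1 (reps hS).2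

theorem dn (k : ℕ) (hk : 1 ≤ k) (u : ℕ) (hu : 1 ≤ u) (θ δ : ℝ) (hθ : 0 < θ) (hδ : 0 < δ) :
    ∃ c : ℝ, 0 < c ∧ ∃ B N₀ : ℕ, ∀ N : ℕ, N₀ ≤ N → Even N → ∀ y H D : ℕ, (N : ℝ) ^ θ ≤ H →
      Real.log N ^ B ≤ D → D ≤ H → ∀ S : Finset ℕ, Reps u N y H S →
      (δ * (H * dens N) ≤ S.card → c * (H * D * dens N ^ k) ≤ (AP k D S : ℝ)) ∧
      (δ * (H * D * dens N ^ k) ≤ (AP k D S : ℝ) → c * (H * dens N) ≤ S.card) := by
  obtain ⟨c, hc, B, n₀, h⟩ := Pool.Agent.Y843.AC.rep_dn k u hk hu hθ hδ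
  refine ⟨c, hc, B, n₀, ?_⟩
  intro N hN hev y H D hH hD hDH S hS
  exact h N hN hev y H D hH hS.1 hD hDH S (reps hS).1 (reps hS).2

lemma Chen_reps {N y H : ℕ} (h : y + H ≤ N) : Reps 9 N y H (Chen N y H) := by
  classical
  refine ⟨h, fun m hm => ?_⟩
  unfold Chen at hm
  rw [mem_filter, mem_Ioc] at hm
  obtain ⟨⟨h1, h2⟩, h3, h4, h5, h6, h7⟩ := hm
  refine ⟨h1, h2, Or.inr ?_⟩
  intro q hq hqN
  have e : ((9 : ℕ) : ℝ) = 9 := by norm_num
  rw [e] at hqN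
  constructor
  · intro h8
    rw [(Nat.prime_dvd_prime_iff_eq hq h3).1 h8] at hqN
    linarith
  · intro h8
    linarith [h7 q hq h8]

/-- the sieve product -/
lemma VV_eq (N Y : ℕ) : Pool.Agent.Y843.HS.VV (Pool.Agent.Y843.HG.Z0 (Pool.Agent.Y840.CT.OmH {(N : ℤ)})) 0 Y =
    Pool.Agent.Y843.HS.VV (Pool.Agent.Y843.HG.ZG N) 0 Y := by
  classical
  unfold Pool.Agent.Y843.HS.VV
  apply prod_congr rfl
  intro p hp
  have hp' := Pool.Agent.Y843.HS.Pr_prime hp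
  have h1 : Pool.Agent.Y843.HG.Z0 (Pool.Agent.Y840.CT.OmH {(N : ℤ)}) p = Pool.Agent.Y843.HG.ZG N p := by
    rw [Pool.Agent.Y840.CT.Z0_OmH, image_singleton, Pool.Agent.Y843.CH.hr_nat N hp'.pos]
    rfl
  rw [h1]

lemma sys {N : ℕ} (hev : Even N) (h0 : 1 ≤ N) : Pool.Agent.Y840.CT.Sys 1 N {(N : ℤ)} := by
  classical
  constructor
  · simp
  · intro h hh
    rw [mem_singleton] at hh
    subst hh
    constructor
    · exact_mod_cast (by omega : N ≠ 0)
    · simp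
  · intro q hq
    unfold Pool.Agent.Y840.CT.rho
    rcases hq.eq_two_or_odd with h2 | h2
    · subst h2
      have h3 : (N : ℤ) % ((2 : ℕ) : ℤ) = 0 := by
        obtain ⟨m, rfl⟩ := hev
        push_cast
        omega
      rw [image_insert, image_singleton, h3]
      simp
    · have h3 : 3 ≤ q := by
        have := hq.two_le
        omega
      refine lt_of_le_of_lt (card_image_le.trans (card_le_two)) (by omega)

/-- Chen's theorem -/
theorem chen_low : ∃ c : ℝ, 0 < c ∧ ∀ θ : ℝ, 0 < θ → ∃ N₀ : ℕ, ∀ N : ℕ, N₀ ≤ N → Even N → ∀ y H : ℕ,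
    y + H ≤ N → θ * N ≤ H → c * (H * dens N) ≤ ((Chen N y H).card : ℝ) := by
  classical
  obtain ⟨t, ht, c₀, hc₀, hlev⟩ := Pool.Agent.Y840.CT.Lev_ex 1
  obtain ⟨c₁, hc₁, n₁, hV⟩ := Pool.Agent.Y843.HG.V_dn t ht
  refine ⟨c₀ * c₁ / 2, by positivity, fun θ hθ => ?_⟩
  obtain ⟨X₀, hX⟩ := hlev θ hθ
  -- `N ^ (1/9) + 1 ≤ (c₀ c₁ / 2) θ N / log² N`
  have hlit : ∀ᶠ x : ℝ in atTop, (x ^ (1 / 9 : ℝ) + 1) * Real.log x ^ 2 ≤ c₀ * c₁ / 2 * θ * x := by
    have h1 := (isLittleO_log_rpow_atTop (show (0 : ℝ) < 1 / 8 by norm_num)).bound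
      (show (0 : ℝ) < 1 by norm_num)
    have h2 := (tendsto_rpow_atTop (show (0 : ℝ) < 1 / 2 by norm_num)).eventually
      (eventually_ge_atTop (2 / (c₀ * c₁ / 2 * θ)))
    filter_upwards [h1, h2, eventually_ge_atTop 1] with x hx1 hx2 hx3
    have hx0 : 0 < x := by linarith
    have hl0 : 0 ≤ Real.log x := Real.log_nonneg hx3
    rw [one_mul, Real.norm_of_nonneg hl0, Real.norm_of_nonneg (by positivity)] at hx1
    have e1 : Real.log x ^ 2 ≤ x ^ (1 / 4 : ℝ) := by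
      calc Real.log x ^ 2 ≤ (x ^ (1 / 8 : ℝ)) ^ 2 := pow_le_pow_left₀ hl0 hx1 2
        _ = x ^ (1 / 4 : ℝ) := by
            rw [← Real.rpow_natCast, ← Real.rpow_mul hx0.le]
            norm_num
    have e2 : x ^ (1 / 9 : ℝ) ≤ x ^ (1 / 4 : ℝ) :=
      Real.rpow_le_rpow_of_exponent_le hx3 (by norm_num)
    have e3 : 1 ≤ x ^ (1 / 4 : ℝ) := Real.one_le_rpow hx3 (by norm_num)
    rw [div_le_iff₀ (by positivity)] at hx2
    have e4 : x ^ (1 / 4 : ℝ) * x ^ (1 / 4 : ℝ) = x ^ (1 / 2 : ℝ) := by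
      rw [← Real.rpow_add hx0]
      norm_num
    have e5 : x ^ (1 / 2 : ℝ) * x ^ (1 / 2 : ℝ) = x := by
      rw [← Real.rpow_add hx0]
      norm_num
    have e6 : 0 ≤ x ^ (1 / 2 : ℝ) := by positivity
    calc (x ^ (1 / 9 : ℝ) + 1) * Real.log x ^ 2 ≤ (x ^ (1 / 4 : ℝ) + x ^ (1 / 4 : ℝ)) * x ^ (1 / 4 : ℝ) := by
          apply mul_le_mul (by linarith) e1 (by positivity) (by positivity)
      _ = 2 * x ^ (1 / 2 : ℝ) := by rw [← e4]; ring
      _ ≤ (x ^ (1 / 2 : ℝ) * (c₀ * c₁ / 2 * θ)) * x ^ (1 / 2 : ℝ) :=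
          mul_le_mul_of_nonneg_right hx2 e6
      _ = c₀ * c₁ / 2 * θ * (x ^ (1 / 2 : ℝ) * x ^ (1 / 2 : ℝ)) := by ring
      _ = c₀ * c₁ / 2 * θ * x := by rw [e5]
  have hlit' := (tendsto_natCast_atTop_atTop (R := ℝ)).eventually hlit
  rw [eventually_atTop] at hlit'
  obtain ⟨n₂, hn₂⟩ := hlit'
  refine ⟨max (max n₁ n₂) (max X₀ 3), ?_⟩
  intro N hN hev y H hyH hH
  have hN1 : n₁ ≤ N := (le_max_left _ _).trans ((le_max_left _ _).trans hN)
  have hN2 : n₂ ≤ N := (le_max_right _ _).trans ((le_max_left _ _).trans hN)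
  have hN3 : X₀ ≤ N := (le_max_left _ _).trans ((le_max_right _ _).trans hN)
  have hN4 : 3 ≤ N := (le_max_right _ _).trans ((le_max_right _ _).trans hN)
  have hNr : (3 : ℝ) ≤ N := by exact_mod_cast hN4
  have hlog : 0 < Real.log N := Real.log_pos (by linarith)
  have hyH' : ((y + H : ℕ) : ℝ) - y = H := by push_cast; ring
  have h1 := hX N hN3 {(N : ℤ)} (sys hev (by omega)) (N : ℤ) (mem_singleton_self _) y (y + H) hyH
    (by rw [hyH']; exact hH)
  rw [hyH', VV_eq] at h1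
  have h2 := hV N hN1 hev
  -- the exceptional small primes
  have h3 : Pool.Agent.Y840.CT.Good t N y (y + H) {(N : ℤ)} (N : ℤ) ⊆
      Chen N y H ∪ Ioc 0 ⌊(N : ℝ) ^ (1 / 9 : ℝ)⌋₊ := by
    intro p hp
    unfold Pool.Agent.Y840.CT.Good at hp
    rw [mem_filter, mem_Ioc] at hp
    obtain ⟨⟨p1, p2⟩, p3, p4, p5, p6⟩ := hp
    rw [mem_union]
    by_cases h4 : (N : ℝ) ^ (1 / 9 : ℝ) < p
    · left
      unfold Chen
      rw [mem_filter, mem_Ioc]
      obtain ⟨g1, g2, g3⟩ := p5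
      have hpN : p < N := by
        rcases Nat.lt_or_ge p N with h | h
        · exact h
        · exfalso
          apply g1
          have : p = N := by omega
          rw [this]
          simp
      have g4 : ((N : ℤ) - p).natAbs = N - p := by omega
      have g5 : ((N : ℤ) - p) = ((N - p : ℕ) : ℤ) := by omega
      rw [g4] at g2
      refine ⟨⟨p1, p2⟩, p3, h4, hpN, g2, ?_⟩
      intro q hq hqd
      apply g3 q hq
      rw [g5]
      exact_mod_cast hqd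
    · right
      rw [mem_Ioc]
      exact ⟨p3.pos, Nat.le_floor (not_lt.1 h4)⟩
  have h4 : ((Pool.Agent.Y840.CT.Good t N y (y + H) {(N : ℤ)} (N : ℤ)).card : ℝ) ≤
      (Chen N y H).card + (N : ℝ) ^ (1 / 9 : ℝ) := by
    have h5 := (card_le_card h3).trans (card_union_le _ _)
    rw [Nat.card_Ioc, Nat.sub_zero] at h5
    have h6 : ((⌊(N : ℝ) ^ (1 / 9 : ℝ)⌋₊ : ℕ) : ℝ) ≤ (N : ℝ) ^ (1 / 9 : ℝ) := Nat.floor_le (by positivity)
    have h7 : ((Pool.Agent.Y840.CT.Good t N y (y + H) {(N : ℤ)} (N : ℤ)).card : ℝ) ≤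
      (Chen N y H).card + (⌊(N : ℝ) ^ (1 / 9 : ℝ)⌋₊ : ℕ) := by exact_mod_cast h5
    linarith
  have h5 : c₀ * c₁ * (H * dens N) ≤
      c₀ * H * Pool.Agent.Y843.HS.VV (Pool.Agent.Y843.HG.ZG N) 0 ⌊(N : ℝ) ^ (1 / (t : ℝ))⌋₊ := by
    have h6 : c₀ * c₁ * (H * dens N) = c₀ * H * (c₁ * (N / (N.totient * Real.log N ^ 2))) := by
      unfold dens
      ring
    rw [h6]
    exact mul_le_mul_of_nonneg_left h2 (by positivity)
  have h6 : (N : ℝ) ^ (1 / 9 : ℝ) ≤ c₀ * c₁ / 2 * (H * dens N) := by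
    have h7 : 1 / Real.log N ^ 2 ≤ dens N := Pool.Agent.Y843.AC.dg_ge hN4
    have h8 := hn₂ N hN2
    have h9 : (N : ℝ) ^ (1 / 9 : ℝ) + 1 ≤ c₀ * c₁ / 2 * (θ * N * (1 / Real.log N ^ 2)) := by
      rw [← mul_assoc, mul_one_div, le_div_iff₀ (by positivity)]
      linarith
    have h10 : θ * N * (1 / Real.log N ^ 2) ≤ H * dens N :=
      mul_le_mul hH h7 (by positivity) (Nat.cast_nonneg _)
    have h11 := mul_le_mul_of_nonneg_left h10 (show 0 ≤ c₀ * c₁ / 2 by positivity)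
    linarith
  linarith

/-- **Narrow progressions of representations of every even number.** Let `k ≥ 1`.

(1) For `u ≥ 1`, `θ, ε > 0` there are `B`, `N₀` such that for every even `N ≥ N₀`, every window
`(y, y + H] ⊆ (0, N]` with `H ≥ N ^ θ` and EVERY set `S` of numbers `p` in the window with `p`, `N - p` both
prime (or without prime factors `≤ N ^ (1/u)`): all elements of `S` with at most `ε H dens N` exceptions lie
on `k`-term progressions of elements of `S` with difference at most `log ^ B N`.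

(2) The number of the `k`-term progressions in `S` with differences `≤ D`, `D ≥ log ^ B N`, is at most
`C H D (dens N) ^ k`.

(3) If `S` has at least `δ H dens N` elements, it has at least `c H D (dens N) ^ k` progressions, and
conversely, for all `D` between `log ^ B N` and `H`.

(4) For every large even `N`, every window of length `H ≥ θ N`, and every `D` between `log ^ B N` and `H`, the
number of the `k`-term progressions with differences `≤ D` of primes `p` such that `N - p` has at most two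
prime factors has the exact order `H D (dens N) ^ k`. -/
theorem result (k : ℕ) (hk : 1 ≤ k) :
    (∀ u : ℕ, 1 ≤ u → ∀ θ ε : ℝ, 0 < θ → 0 < ε →
      ∃ B N₀ : ℕ, ∀ N : ℕ, N₀ ≤ N → Even N → ∀ y H : ℕ, (N : ℝ) ^ θ ≤ H → ∀ S : Finset ℕ,
        Reps u N y H S → ((outside k (Real.log N ^ B) S).card : ℝ) ≤ ε * (H * dens N)) ∧
    (∀ u : ℕ, 1 ≤ u → ∀ θ : ℝ, 0 < θ →
      ∃ C : ℝ, 0 < C ∧ ∃ B N₀ : ℕ, ∀ N : ℕ, N₀ ≤ N → Even N → ∀ y H D : ℕ, (N : ℝ) ^ θ ≤ H →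
        Real.log N ^ B ≤ D → ∀ S : Finset ℕ, Reps u N y H S →
          (AP k D S : ℝ) ≤ C * (H * D * dens N ^ k)) ∧
    (∀ u : ℕ, 1 ≤ u → ∀ θ δ : ℝ, 0 < θ → 0 < δ →
      ∃ c : ℝ, 0 < c ∧ ∃ B N₀ : ℕ, ∀ N : ℕ, N₀ ≤ N → Even N → ∀ y H D : ℕ, (N : ℝ) ^ θ ≤ H →
        Real.log N ^ B ≤ D → D ≤ H → ∀ S : Finset ℕ, Reps u N y H S →
        (δ * (H * dens N) ≤ S.card → c * (H * D * dens N ^ k) ≤ (AP k D S : ℝ)) ∧
        (δ * (H * D * dens N ^ k) ≤ (AP k D S : ℝ) → c * (H * dens N) ≤ S.card)) ∧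
    (∃ c C : ℝ, 0 < c ∧ 0 < C ∧ ∃ B : ℕ, ∀ θ : ℝ, 0 < θ → ∃ N₀ : ℕ, ∀ N : ℕ, N₀ ≤ N → Even N →
      ∀ y H D : ℕ, y + H ≤ N → θ * N ≤ H → Real.log N ^ B ≤ D → D ≤ H →
        c * (H * D * dens N ^ k) ≤ (AP k D (Chen N y H) : ℝ) ∧
          (AP k D (Chen N y H) : ℝ) ≤ C * (H * D * dens N ^ k)) := by
  refine ⟨fun u hu θ ε hθ hε => almost_all k hk u hu θ ε hθ hε, fun u hu θ hθ => up k hk u hu θ hθ,
    fun u hu θ δ hθ hδ => dn k hk u hu θ δ hθ hδ, ?_⟩
  obtain ⟨c₀, hc₀, hch⟩ := chen_low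
  obtain ⟨C, hC, B₁, n₁, h1⟩ := up k hk 9 (by norm_num) (1 / 2) (by norm_num)
  obtain ⟨c, hc, B₂, n₂, h2⟩ := dn k hk 9 (by norm_num) (1 / 2) c₀ (by norm_num) hc₀
  refine ⟨c, C, hc, hC, max B₁ B₂, fun θ hθ => ?_⟩
  obtain ⟨n₃, h3⟩ := hch θ hθ
  have hw : ∀ᶠ x : ℝ in atTop, x ^ (1 / 2 : ℝ) ≤ θ * x := by
    have h4 := (tendsto_rpow_atTop (show (0 : ℝ) < 1 / 2 by norm_num)).eventually
      (eventually_ge_atTop (1 / θ))
    filter_upwards [h4, eventually_gt_atTop 0] with x hx hx0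
    rw [div_le_iff₀ hθ] at hx
    have e5 : x ^ (1 / 2 : ℝ) * x ^ (1 / 2 : ℝ) = x := by
      rw [← Real.rpow_add hx0]
      norm_num
    have e6 : 0 ≤ x ^ (1 / 2 : ℝ) := by positivity
    calc x ^ (1 / 2 : ℝ) = 1 * x ^ (1 / 2 : ℝ) := (one_mul _).symm
      _ ≤ (x ^ (1 / 2 : ℝ) * θ) * x ^ (1 / 2 : ℝ) := mul_le_mul_of_nonneg_right hx e6
      _ = θ * (x ^ (1 / 2 : ℝ) * x ^ (1 / 2 : ℝ)) := by ring
      _ = θ * x := by rw [e5]
  have hw' := (tendsto_natCast_atTop_atTop (R := ℝ)).eventually hw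
  rw [eventually_atTop] at hw'
  obtain ⟨n₄, h4⟩ := hw'
  refine ⟨max (max n₁ n₂) (max n₃ (max n₄ 3)), ?_⟩
  intro N hN hev y H D hyH hH hD hDH
  have hN1 : n₁ ≤ N := (le_max_left _ _).trans ((le_max_left _ _).trans hN)
  have hN2 : n₂ ≤ N := (le_max_right _ _).trans ((le_max_left _ _).trans hN)
  have hN3 : n₃ ≤ N := (le_max_left _ _).trans ((le_max_right _ _).trans hN)
  have hN4 : n₄ ≤ N := (le_max_left _ _).trans ((le_max_right _ _).trans ((le_max_right _ _).trans hN))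
  have hN5 : 3 ≤ N := (le_max_right _ _).trans ((le_max_right _ _).trans ((le_max_right _ _).trans hN))
  have hlog : 1 ≤ Real.log N := by
    have h5 : Real.exp 1 ≤ N := by
      have h6 : (3 : ℝ) ≤ N := by exact_mod_cast hN5
      have := Real.exp_one_lt_d9
      linarith
    have := Real.log_le_log (Real.exp_pos 1) h5
    rwa [Real.log_exp] at this
  have hB1 : Real.log N ^ B₁ ≤ D := (pow_le_pow_right₀ hlog (le_max_left _ _)).trans hD
  have hB2 : Real.log N ^ B₂ ≤ D := (pow_le_pow_right₀ hlog (le_max_right _ _)).trans hD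
  have hH' : (N : ℝ) ^ (1 / 2 : ℝ) ≤ H := (h4 N hN4).trans hH
  exact ⟨(h2 N hN2 hev y H D hH' hB2 hDH _ (Chen_reps hyH)).1 (h3 N hN3 hev y H hyH hH),
    h1 N hN1 hev y H D hH' hB1 _ (Chen_reps hyH)⟩

end Pool.Agent.Results.MP_7b7e48_nt.NarrowProgressions
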