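import Pool.Agent.Y816.PD.UniL

/-!
# Goldbach's problem for EVERY even number, the first summand having restricted digits

Let `b ≥ 2` be a base and `K` a large number of digits. For every `i < K` let `A i` be an arbitrary non-empty set of digits. Nothing
is assumed about these sets except that they are not too small on average: the number `|A 0| ⋯ |A (K - 1)|` of the integers
`m < b ^ K` whose `i`-th digit belongs to `A i` for all `i < K` is at least `exp (- c K) b ^ K`. (For example, a digit is missing
everywhere and the base is large; or the digits at an arbitrary set of at most `c' K` places are prescribed.) Here `c > 0` is a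
constant which does not depend on the base, nor on the number `r` of prime factors below.

Let `N` be ANY even number between `2 b ^ K` and `b ^ (E K)`. The integers `m < b ^ K` with these digits such that both `m` and
`N - m` have at most `r` prime factors, all greater than `b ^ (K / r)`, are counted up to a constant factor: their number is at
least `κ V |A 0| ⋯ |A (K - 1)|`, where `V` is the product of the factors `1 - 1 / p` over the primes `p ≤ b ^ K` dividing `N` and of the
factors `1 - 2 / p` over the other primes `p ≤ b ^ K` (the expected order), unless there is an obvious obstruction (no digit `d` in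
`A 0` such that `d` and `N - d` are prime to `b`). The number of those for which `m` and `N - m` are (distinct) primes is at most
`C V |A 0| ⋯ |A (K - 1)|`. All constants are independent of `N` and of the sets `A i`.

Proof. The theorem on almost prime values of polynomials at integers with restricted digits, uniform in the polynomial, of the
starting library (`Pool.Agent.Y816.PD.uni_fun`; a sieve of dimension two with the level of distribution of the integers with
restricted digits, which comes from a large sieve for the Fourier transform), applied to the polynomial `X (N - X)`.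
-/

set_option autoImplicit false

namespace Pool.Agent.Results.MP_7b7e48_nt.RestrictedDigits

open Filter Finset

/-- The `i`-th digit of `m` in base `b` (counted from the right, beginning with `0`) belongs to `A i` for all `i < K`. -/
def HasDigits (b K : ℕ) (A : ℕ → Finset ℕ) (m : ℕ) : Prop := ∀ i < K, m / b ^ i % b ∈ A i

/-- The number of the choices of `K` digits in the sets `A i`. -/
def choices (K : ℕ) (A : ℕ → Finset ℕ) : ℕ := ∏ i ∈ range K, (A i).card

/-- `m` has at most `r` prime factors (counted with multiplicity), and all of them are larger than `y ^ (1 / r)`. -/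
def AlmostPrime (y r m : ℕ) : Prop :=
  (∀ p : ℕ, p.Prime → p ∣ m → y < p ^ r) ∧ m.primeFactorsList.length ≤ r

/-- The product of `1 - 1 / p` over the primes `p ≤ y` dividing `N` and of `1 - 2 / p` over the other primes `p ≤ y`. -/
noncomputable def density (N y : ℕ) : ℝ :=
  ∏ p ∈ (Icc 1 y).filter Nat.Prime, (1 - (if p ∣ N then 1 else 2) / (p : ℝ))

open Classical in
/-- The number of the `m < b ^ K` with the digits `A i` which have the property `P`. -/
noncomputable def count (b K : ℕ) (A : ℕ → Finset ℕ) (P : ℕ → Prop) : ℕ :=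
  ((range (b ^ K)).filter fun m => HasDigits b K A m ∧ P m).card

lemma ND_le_count {g K : ℕ} {A : ℕ → Finset ℕ} {S : Set ℕ} {P : ℕ → Prop} (h : ∀ n < g ^ K, n ∈ S → P n) :
    Pool.Agent.Y816.PD.ND g K A S ≤ count g K A P := by
  classical
  unfold Pool.Agent.Y816.PD.ND count
  apply card_le_card
  intro n hn
  have h1 := mem_filter.1 hn
  exact mem_filter.2 ⟨h1.1, h1.2.1, h n (mem_range.1 h1.1) h1.2.2⟩

lemma count_le_ND {g K : ℕ} {A : ℕ → Finset ℕ} {S : Set ℕ} {P : ℕ → Prop} (h : ∀ n < g ^ K, P n → n ∈ S) :
    count g K A P ≤ Pool.Agent.Y816.PD.ND g K A S := by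
  classical
  unfold Pool.Agent.Y816.PD.ND count
  apply card_le_card
  intro n hn
  have h1 := mem_filter.1 hn
  exact mem_filter.2 ⟨h1.1, h1.2.1, h n (mem_range.1 h1.1) h1.2.2⟩

open Pool.Agent.Y816.PD in
lemma choices_eq (K : ℕ) (A : ℕ → Finset ℕ) : (choices K A : ℝ) = NA K A := by
  unfold choices NA
  push_cast
  rfl

lemma card_roots {p N : ℕ} (hp : p.Prime) :
    ((range p).filter (fun n : ℕ => (p : ℤ) ∣ (n : ℤ) * (N - n))).card = if p ∣ N then 1 else 2 := by
  have hpz := Nat.prime_iff_prime_int.1 hp
  have h1 : (range p).filter (fun n : ℕ => (p : ℤ) ∣ (n : ℤ) * (N - n)) = {0, N % p} := by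
    ext n
    rw [mem_filter, mem_range, mem_insert, mem_singleton]
    constructor
    · rintro ⟨h2, h3⟩
      rcases hpz.dvd_or_dvd h3 with h4 | h4
      · left
        exact Nat.eq_zero_of_dvd_of_lt (Int.natCast_dvd_natCast.1 h4) h2
      · right
        have h5 : (n : ℤ) ≡ (N : ℤ) [ZMOD p] := (Int.modEq_iff_dvd).2 h4
        have h6 : n ≡ N [MOD p] := (Int.natCast_modEq_iff).1 h5
        unfold Nat.ModEq at h6
        rwa [Nat.mod_eq_of_lt h2] at h6
    · rintro (rfl | rfl)
      · exact ⟨hp.pos, by simp⟩
      · refine ⟨Nat.mod_lt _ hp.pos, Dvd.dvd.mul_left ?_ _⟩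
        refine ⟨((N / p : ℕ) : ℤ), ?_⟩
        have h2 := Nat.div_add_mod N p
        have h3 : ((p * (N / p) + N % p : ℕ) : ℤ) = (N : ℤ) := by rw [h2]
        push_cast at h3 ⊢
        linarith
  rw [h1]
  split_ifs with h2
  · rw [Nat.mod_eq_zero_of_dvd h2]
    simp
  · rw [card_pair]
    intro h3
    exact h2 (Nat.dvd_of_mod_eq_zero h3.symm)

open Pool.Agent.Y816.PD in
lemma density_eq (N y : ℕ) : WG (fun n : ℕ => (n : ℤ) * (N - n)) y = density N y := by
  classical
  unfold WG density
  apply prod_congr rfl
  intro p hp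
  rw [mem_filter] at hp
  have h1 := card_roots (N := N) hp.2
  have h2 : (((range p).filter (fun n : ℕ => (p : ℤ) ∣ (n : ℤ) * (N - n))).card : ℝ) =
      if p ∣ N then 1 else 2 := by
    rw [h1]
    split_ifs <;> simp
  rw [← h2]

/-- **Goldbach's problem for every even number, the first summand having restricted digits.** -/
theorem result (E : ℕ) :
    ∃ c : ℝ, 0 < c ∧ ∃ r₀ : ℕ, 2 ≤ r₀ ∧ ∀ r : ℕ, r₀ ≤ r → ∀ b : ℕ, 2 ≤ b → ∃ κ C : ℝ, 0 < κ ∧ 0 < C ∧
      ∀ᶠ K : ℕ in atTop, ∀ N : ℕ, Even N → 2 * b ^ K ≤ N → N ≤ b ^ (E * K) →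
        ∀ A : ℕ → Finset ℕ, (∀ i < K, A i ⊆ range b) → (b : ℝ) ^ K ≤ Real.exp (c * K) * choices K A →
          ((∃ d ∈ A 0, d.Coprime b ∧ (N - d).Coprime b) →
            κ * density N (b ^ K) * choices K A ≤
              count b K A fun m => AlmostPrime (b ^ K) r m ∧ AlmostPrime (b ^ K) r (N - m)) ∧
          (count b K A (fun m => m.Prime ∧ (N - m).Prime ∧ m ≠ N - m) : ℝ) ≤
            C * density N (b ^ K) * choices K A := by
  classical
  obtain ⟨c, hc, r0, hr0, h⟩ := Pool.Agent.Y816.PD.uni_fun 2 (E + 1) (by norm_num)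
  refine ⟨c, hc, r0, hr0, fun r hr b hb => ?_⟩
  obtain ⟨κ, C, hκ, hC, h1⟩ := h r hr b hb
  refine ⟨κ, C, hκ, hC, ?_⟩
  filter_upwards [h1, eventually_ge_atTop (r + 1)] with K hK hK2
  intro N hN hN1 hN2 A hA hprod
  obtain ⟨G, hG⟩ : ∃ G : ℕ → ℤ, G = fun n : ℕ => (n : ℤ) * (N - n) := ⟨_, rfl⟩
  have hbK : 1 ≤ b ^ K := Nat.one_le_pow _ _ (by omega)
  have hbb : b ≤ b ^ K := by
    calc b = b ^ 1 := (pow_one b).symm
      _ ≤ b ^ K := Nat.pow_le_pow_right (by omega) (by omega)
  have hGnat : ∀ n : ℕ, n ≤ N → G n = ((n * (N - n) : ℕ) : ℤ) := by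
    intro n hn
    rw [hG]
    push_cast [Nat.cast_sub hn]
    ring
  have h2r : 2 ^ r ≤ b ^ K :=
    (Nat.pow_le_pow_left hb r).trans (Nat.pow_le_pow_right (by omega) (by omega))
  obtain ⟨hlow, hup⟩ := hK G ⟨Polynomial.X * (Polynomial.C (N : ℤ) - Polynomial.X), by
      refine (Polynomial.natDegree_mul_le).trans ?_
      have e1 : (Polynomial.X : Polynomial ℤ).natDegree ≤ 1 := Polynomial.natDegree_X_le
      have e2 : (Polynomial.C (N : ℤ) - Polynomial.X : Polynomial ℤ).natDegree ≤ 1 := by
        refine (Polynomial.natDegree_sub_le _ _).trans ?_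
        rw [Polynomial.natDegree_C]
        exact max_le (by norm_num) e1
      omega, fun n => by rw [hG]; simp⟩
    (fun p hp => by
      obtain ⟨j, hj⟩ := Pool.Agent.Y816.PD.adm_gold (N := (N : ℤ)) (by exact_mod_cast hN) 0 p hp
      refine ⟨j, ?_⟩
      rw [hG]
      simpa using hj)
    (fun n hn => by
      rw [hGnat n (by omega), Int.natAbs_natCast, add_mul, one_mul, pow_add, mul_comm]
      exact Nat.mul_le_mul ((Nat.sub_le _ _).trans hN2) hn.le)
    A hA (by rw [← choices_eq]; exact hprod)
  rw [hG, density_eq, ← choices_eq, ← hG] at hlow hup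
  constructor
  · rintro ⟨d, hd, hd1, hd2⟩
    have hdb : d < b := by
      have := hA 0 (by omega) hd
      rwa [mem_range] at this
    have h3 := hlow ⟨d, hd, by
      rw [hGnat d (by omega), Int.natAbs_natCast]
      exact Nat.Coprime.mul_left hd1 hd2⟩
    rw [mul_right_comm]
    refine h3.trans (Nat.cast_le.2 ?_)
    refine ND_le_count fun n hn1 hn => ?_
    obtain ⟨hn3, hn4⟩ := hn
    have hn0 : n ≠ 0 := by
      rintro rfl
      have h4 := hn3 2 Nat.prime_two (by rw [hG]; simp)
      omega
    have hNn : N - n ≠ 0 := by omega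
    rw [hGnat n (by omega)] at hn3 hn4
    rw [Int.natAbs_natCast, (Nat.perm_primeFactorsList_mul hn0 hNn).length_eq, List.length_append] at hn4
    refine ⟨⟨fun p hp hpn => ?_, by omega⟩, fun p hp hpn => ?_, by omega⟩
    · exact hn3 p hp (Int.natCast_dvd_natCast.2 (hpn.mul_right _))
    · exact hn3 p hp (Int.natCast_dvd_natCast.2 (hpn.mul_left _))
  · rw [mul_right_comm]
    refine le_trans (Nat.cast_le.2 ?_) hup
    refine count_le_ND fun n hn1 hn => ?_
    obtain ⟨hn3, hn4, hn5⟩ := hn
    intro p hp hpn
    rw [hGnat n (by omega), Int.natCast_dvd_natCast] at hpn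
    have h5 : n ≤ p := by
      rcases (hp.dvd_mul).1 hpn with h6 | h6
      · exact ((Nat.prime_dvd_prime_iff_eq hp hn3).1 h6).ge
      · rw [(Nat.prime_dvd_prime_iff_eq hp hn4).1 h6]
        omega
    exact lt_of_le_of_lt h5 (lt_self_pow₀ hp.one_lt (by omega))

end Pool.Agent.Results.MP_7b7e48_nt.RestrictedDigits
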