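import Pool.Agent.W23.SG.All
import Pool.Agent.Q311.SP.A

/-!
# Numbers `N - p` with `p` from an arbitrary, possibly sparse, set of primes

For every `ε > 0` there are `c, C, η > 0` such that, for EVERY set `A` of primes up to `X` with at least
`X ^ (1 - η)` elements, all integers `N` with `|N| ≤ 2 X`, with at most `C X / (|A| log X)` exceptions (so with
a bounded number of exceptions if `A` has a positive relative density in the primes), have the property that
for at least `c |A|` of the primes `p` in `A` the number `|N - p|` is, up to a factor all of whose prime factors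
are smaller than `X ^ ε`, a product of at most two primes, both larger than `X ^ (1/7)`.

This first part is proved in the starting files (`Pool.Agent.W23.SG.All`), where it was not handed in.

The second part is new: let `A` be any set of primes and `X 0, X 1, …` any scales tending to infinity at which
`A` has relative density at least `δ`, and let `N i` (`i` in any set) be sequences of integers, in the range
`|N i k| ≤ 2 X k` for large `k`, any two of which are different for large `k` (for instance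
`N t k = ⌊t X k⌋` for all real `t` in `[0, 2]`). Then for every `θ > 0` all the sequences, with at most
`C / (δ θ)` exceptions, have the same property at a proportion larger than `1 - θ` of the first `K` scales, for
arbitrarily large `K`.
-/

set_option autoImplicit false

namespace Pool.Agent.Results.MP_7b7e48_nt.SparseSetsOfPrimes

open Finset Filter

/-- up to a factor `m` all of whose prime factors are smaller than `X ^ ε`, the number `n ≥ 1` is a product `s`
of at most two primes (which may be equal), both larger than `X ^ (1/7)` -/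
def AlmostPrime (ε : ℝ) (X n : ℕ) : Prop :=
  n ≠ 0 ∧ ∃ m s : ℕ, n = m * s ∧ (∀ l : ℕ, l.Prime → l ∣ m → (l : ℝ) < (X : ℝ) ^ ε) ∧
    s.primeFactorsList.length ≤ 2 ∧ ∀ q ∈ s.primeFactors, (X : ℝ) ^ (1 / 7 : ℝ) < q

/-- the number of `p ∈ A` for which `|N - p|` is almost prime -/
noncomputable def count (ε : ℝ) (X : ℕ) (A : Finset ℕ) (N : ℤ) : ℕ :=
  {p : ℕ | p ∈ A ∧ AlmostPrime ε X (N - p).natAbs}.ncard

/-- the elements of `A` up to `X` -/
noncomputable def upTo (A : Set ℕ) (X : ℕ) : Finset ℕ := by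
  classical exact (Finset.range (X + 1)).filter (fun p => p ∈ A)

theorem part1 (ε : ℝ) (hε : 0 < ε) :
    ∃ c C η : ℝ, 0 < c ∧ 0 < η ∧ ∀ X : ℕ, 2 ≤ X → ∀ A : Finset ℕ,
      (∀ p ∈ A, p.Prime ∧ p ≤ X) → (X : ℝ) ^ (1 - η) ≤ A.card →
      ({N : ℤ | |N| ≤ 2 * X ∧ (count ε X A N : ℝ) < c * A.card}.ncard : ℝ) ≤
        C * (X / (A.card * Real.log X)) := by
  classical
  obtain ⟨c, C, η, hc, hη, h⟩ := Pool.Agent.W23.SG.sparse_sets ε hε
  refine ⟨c, C, η, hc, hη, fun X hX A hA hcard => ?_⟩
  refine le_trans ?_ (h X hX A hA hcard)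
  rw [Nat.cast_le]
  refine le_trans (Set.ncard_le_ncard ?_ (Finset.finite_toSet _)) (le_of_eq (Set.ncard_coe_finset _))
  rintro N ⟨hN, hlt⟩
  rw [Finset.mem_coe, Finset.mem_filter, Finset.mem_Icc]
  refine ⟨abs_le.1 hN, ?_⟩
  refine lt_of_le_of_lt ?_ hlt
  rw [Nat.cast_le, count, ← Set.ncard_coe_finset]
  refine Set.ncard_le_ncard ?_ ((Finset.finite_toSet A).subset fun p hp => hp.1)
  intro p hp
  rw [Finset.mem_coe, Finset.mem_filter] at hp
  obtain ⟨hpA, hne, m, s, h1, h2, h3, h4⟩ := hp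
  refine ⟨hpA, ?_, m, s, h1, h2, h3, h4⟩
  rw [Ne, Int.natAbs_eq_zero]
  intro h0
  exact hne (by omega)

theorem result (ε : ℝ) (hε : 0 < ε) :
    ∃ c C η : ℝ, 0 < c ∧ 0 ≤ C ∧ 0 < η ∧
      (∀ X : ℕ, 2 ≤ X → ∀ A : Finset ℕ,
        (∀ p ∈ A, p.Prime ∧ p ≤ X) → (X : ℝ) ^ (1 - η) ≤ A.card →
        ({N : ℤ | |N| ≤ 2 * X ∧ (count ε X A N : ℝ) < c * A.card}.ncard : ℝ) ≤
          C * (X / (A.card * Real.log X))) ∧
      (∀ (A : Set ℕ) (X : ℕ → ℕ) (δ θ : ℝ) (I : Type) (N : I → ℕ → ℤ),
        (∀ p ∈ A, p.Prime) → Tendsto X atTop atTop → 0 < δ → 0 < θ →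
        (∀ᶠ k in atTop, δ * (X k / Real.log (X k)) ≤ ((upTo A (X k)).card : ℝ)) →
        (∀ i, ∀ᶠ k in atTop, |N i k| ≤ 2 * X k) →
        (∀ i j, i ≠ j → ∀ᶠ k in atTop, N i k ≠ N j k) →
        {i : I | ∀ᶠ K : ℕ in atTop,
          θ * K ≤ ({k : ℕ | k < K ∧ (count ε (X k) (upTo A (X k)) (N i k) : ℝ) <
            c * (upTo A (X k)).card}.ncard : ℝ)}.Finite ∧
        ({i : I | ∀ᶠ K : ℕ in atTop,
          θ * K ≤ ({k : ℕ | k < K ∧ (count ε (X k) (upTo A (X k)) (N i k) : ℝ) <
            c * (upTo A (X k)).card}.ncard : ℝ)}.ncard : ℝ) ≤ C / (δ * θ)) := by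
  classical
  obtain ⟨c, C₀, η, hc, hη, h0⟩ := part1 ε hε
  have h : ∀ X : ℕ, 2 ≤ X → ∀ A : Finset ℕ,
      (∀ p ∈ A, p.Prime ∧ p ≤ X) → (X : ℝ) ^ (1 - η) ≤ A.card →
      ({N : ℤ | |N| ≤ 2 * X ∧ (count ε X A N : ℝ) < c * A.card}.ncard : ℝ) ≤
        (max C₀ 0) * (X / (A.card * Real.log X)) := by
    intro X hX A hA hcard
    refine (h0 X hX A hA hcard).trans ?_
    have : (1 : ℝ) < X := by exact_mod_cast hX
    have h1 : 0 ≤ Real.log X := (Real.log_pos this).le
    gcongr
    exact le_max_left _ _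
  refine ⟨c, max C₀ 0, η, hc, le_max_right _ _, hη, h, ?_⟩
  set C := max C₀ 0 with hC
  have hC0 : 0 ≤ C := le_max_right _ _
  intro A X δ θ I N hA hX hδ hθ hdens hN hNN
  refine Q311.SP.ncard_of_finset _ _ fun E hE => ?_
  have e : C / (δ * θ) = C / δ / θ := by rw [div_div]
  rw [e]
  refine Q311.SP.count_scales
    (fun (k : ℕ) (i : I) => (count ε (X k) (upTo A (X k)) (N i k) : ℝ) <
      c * (upTo A (X k)).card) (C / δ) θ hθ E ?_ ?_
  · -- at all large scales
    have hr : ∀ᶠ k in atTop, ∀ i ∈ E, |N i k| ≤ 2 * X k := by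
      rw [Filter.eventually_all_finset]
      exact fun i _ => hN i
    have hinj : ∀ᶠ k in atTop, ∀ i ∈ E, ∀ j ∈ E, i ≠ j → N i k ≠ N j k := by
      rw [Filter.eventually_all_finset]
      intro i _
      rw [Filter.eventually_all_finset]
      intro j _
      by_cases hij : i = j
      · exact Filter.Eventually.of_forall fun k hne => absurd hij hne
      · filter_upwards [hNN i j hij] with k hk _ using hk
    have hall : ∀ᶠ k in atTop, ((E.filter (fun i => (count ε (X k) (upTo A (X k)) (N i k) : ℝ) <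
      c * (upTo A (X k)).card)).card : ℝ) ≤ C / δ := by
      filter_upwards [hdens, hr, hinj, hX.eventually_ge_atTop 2,
        hX.eventually (Q311.SP.rpow_le_of_dens δ η hδ hη)] with k h1 h2 hij h3 h4
      have hX2 : (2 : ℝ) ≤ X k := by exact_mod_cast h3
      have hX0 : (0 : ℝ) < X k := by linarith
      have hl : 0 < Real.log (X k) := Real.log_pos (by linarith)
      have hq0 : 0 < δ * (X k / Real.log (X k)) := by positivity
      have hq1 : (0 : ℝ) < (upTo A (X k)).card := lt_of_lt_of_le hq0 h1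
      have h5 := h (X k) h3 (upTo A (X k)) (by
        intro q hq
        simp only [upTo, Finset.mem_filter, Finset.mem_range] at hq
        exact ⟨hA q hq.2, by omega⟩) (h4.trans h1)
      have h6 : C * (X k / ((upTo A (X k)).card * Real.log (X k))) ≤ C / δ := by
        rw [div_eq_mul_one_div C δ]
        refine mul_le_mul_of_nonneg_left ?_ hC0
        rw [div_le_div_iff₀ (by positivity) hδ, one_mul]
        have h7 : δ * X k ≤ (upTo A (X k)).card * Real.log (X k) := by
          have := mul_le_mul_of_nonneg_right h1 hl.le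
          have e1 : δ * (X k / Real.log (X k)) * Real.log (X k) = δ * X k := by field_simp
          rwa [e1] at this
        linarith
      refine le_trans ?_ (h5.trans h6)
      rw [Nat.cast_le]
      rw [← Finset.card_image_of_injOn (f := fun i => N i k) (s := E.filter (fun i =>
        (count ε (X k) (upTo A (X k)) (N i k) : ℝ) < c * (upTo A (X k)).card))]
      · rw [← Set.ncard_coe_finset]
        refine Set.ncard_le_ncard ?_ ?_
        · intro n hn
          rw [Finset.mem_coe, Finset.mem_image] at hn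
          obtain ⟨i, hi, rfl⟩ := hn
          rw [Finset.mem_filter] at hi
          exact ⟨h2 i hi.1, hi.2⟩
        · refine (Set.finite_Icc (-(2 * (X k : ℤ))) (2 * (X k : ℤ))).subset ?_
          rintro n ⟨hn, -⟩
          exact ⟨(abs_le.1 hn).1, (abs_le.1 hn).2⟩
      · intro i hi j hj hne
        rw [Finset.mem_coe, Finset.mem_filter] at hi hj
        by_contra hij'
        exact hij i hi.1 j hj.1 hij' hne
    exact Filter.eventually_atTop.1 hall
  · intro i hi
    exact Filter.eventually_atTop.1 (hE i hi)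

/-- the second part for the sequences `⌊t X k⌋`, `t` a real number in `[0, 2]` -/
theorem reals (ε : ℝ) (hε : 0 < ε) :
    ∃ c C : ℝ, 0 < c ∧ 0 ≤ C ∧
      ∀ (A : Set ℕ) (X : ℕ → ℕ) (δ θ : ℝ),
        (∀ p ∈ A, p.Prime) → Tendsto X atTop atTop → 0 < δ → 0 < θ →
        (∀ᶠ k in atTop, δ * (X k / Real.log (X k)) ≤ ((upTo A (X k)).card : ℝ)) →
        {t : Set.Icc (0 : ℝ) 2 | ∀ᶠ K : ℕ in atTop,
          θ * K ≤ ({k : ℕ | k < K ∧ (count ε (X k) (upTo A (X k)) ⌊(t : ℝ) * X k⌋ : ℝ) <
            c * (upTo A (X k)).card}.ncard : ℝ)}.Finite ∧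
        ({t : Set.Icc (0 : ℝ) 2 | ∀ᶠ K : ℕ in atTop,
          θ * K ≤ ({k : ℕ | k < K ∧ (count ε (X k) (upTo A (X k)) ⌊(t : ℝ) * X k⌋ : ℝ) <
            c * (upTo A (X k)).card}.ncard : ℝ)}.ncard : ℝ) ≤ C / (δ * θ) := by
  obtain ⟨c, C, η, hc, hC, -, -, h⟩ := result ε hε
  refine ⟨c, C, hc, hC, fun A X δ θ hA hX hδ hθ hdens => ?_⟩
  refine h A X δ θ (Set.Icc (0 : ℝ) 2) (fun t k => ⌊(t : ℝ) * X k⌋) hA hX hδ hθ hdens ?_ ?_
  · intro t
    refine Filter.Eventually.of_forall fun k => ?_
    have h0 : (0 : ℝ) ≤ (t : ℝ) * X k := mul_nonneg t.2.1 (Nat.cast_nonneg _)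
    have h1 : (0 : ℤ) ≤ ⌊(t : ℝ) * X k⌋ := Int.floor_nonneg.2 h0
    rw [abs_of_nonneg h1]
    have h2 : (⌊(t : ℝ) * X k⌋ : ℝ) ≤ 2 * X k :=
      (Int.floor_le _).trans (mul_le_mul_of_nonneg_right t.2.2 (Nat.cast_nonneg _))
    exact_mod_cast h2
  · have key : ∀ s t : Set.Icc (0 : ℝ) 2, (s : ℝ) < t →
        ∀ᶠ k in atTop, ⌊(s : ℝ) * X k⌋ < ⌊(t : ℝ) * X k⌋ := by
      intro s t hst
      have hX' : Tendsto (fun k => (X k : ℝ)) atTop atTop := tendsto_natCast_atTop_atTop.comp hX
      have hd : 0 < (t : ℝ) - s := by linarith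
      filter_upwards [hX'.eventually_ge_atTop (1 / ((t : ℝ) - s))] with k hk
      have h1 : 1 ≤ ((t : ℝ) - s) * X k := by
        rw [div_le_iff₀ hd] at hk
        linarith
      have h2 : ⌊(s : ℝ) * X k⌋ + 1 ≤ ⌊(t : ℝ) * X k⌋ := by
        rw [Int.le_floor]
        push_cast
        have := Int.floor_le ((s : ℝ) * X k)
        linarith
      omega
    intro s t hst
    rcases lt_or_gt_of_ne (fun hh => hst (Subtype.ext hh) : (s : ℝ) ≠ t) with h1 | h1
    · filter_upwards [key s t h1] with k hk using hk.ne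
    · filter_upwards [key t s h1] with k hk using hk.ne'

end Pool.Agent.Results.MP_7b7e48_nt.SparseSetsOfPrimes
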