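import Pool.Agent.TH935.TG3
import Pool.Agent.Q56.TF.Vec

/-!
# Goldbach representations with a summand from an arbitrary set of primes: even numbers near real sequences

The representations `2 n 1 = p 1 + q`, ..., `2 n k = p k + q` of `k` even numbers as sums of two distinct primes with
a common summand `q` from an arbitrary set of primes (`k = 1`: Goldbach's problem). The numbers `2 n i` are arbitrary
even numbers with `|2 n i - r i (m i)| ≤ log ^ A N`, for almost all vectors `m` in a box, where for every `i`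
`r i 1, r i 2, ...` is an arbitrary family of real numbers of nearly minimal energy; for instance the (real) values of
a polynomial with integer coefficients, multiplied by an arbitrary real number `κ ≠ 0`, or of a generalised
polynomial `∑ w_y t ^ y` whose largest exponent is greater than `1` and not an integer (`t ^ c`: the sequences of
Piatetski-Shapiro).

From Mathlib: `Polynomial ℤ`, `P.eval m`: polynomials and their values; `Finset.Ioc y₁ y₂`: the integers `q` with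
`y₁ < q ≤ y₂`; `Fintype.piFinset`: the product of finite sets. The formula for families of integers is from the
starting files (`Pool.Agent.TH935.TG.fam_win`).
-/

set_option autoImplicit false

namespace Pool.Agent.Results.MP_7b7e48_nt.SummandsFromArbitrarySets

open Finset

open Classical in
/-- The energy of order `p` of the family of real numbers `r 1, ..., r x`: the number of the pairs `v`, `w` of
`p`-tuples of elements of `{1, ..., x}` such that `r (v 1) + ... + r (v p)` and `r (w 1) + ... + r (w p)` differ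
by at most `1`. -/
noncomputable def energy (p x : ℕ) (r : ℕ → ℝ) : ℕ :=
  (((Fintype.piFinset fun _ : Fin p => Icc 1 x) ×ˢ (Fintype.piFinset fun _ : Fin p => Icc 1 x)).filter
    (fun q => |∑ i, r (q.1 i) - ∑ i, r (q.2 i)| ≤ 1)).card

open Classical in
/-- The number of the primes `q ∈ M` with `y₁ < q ≤ y₂` such that every `2 n i` is the sum of `q` and of a prime
`p ≠ q`. -/
noncomputable def primeCount {k : ℕ} (n : Fin k → ℕ) (M : Set ℕ) (y₁ y₂ : ℕ) : ℕ :=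
  ((Ioc y₁ y₂).filter (fun q : ℕ => q.Prime ∧ q ∈ M ∧ ∀ i, ∃ p : ℕ, p.Prime ∧ p ≠ q ∧ p + q = 2 * n i)).card

open Classical in
/-- The number of the primes `q ∈ M` with `y₁ < q ≤ y₂` such that no `2 n i - q` is divisible by a prime `p ≤ z`. -/
noncomputable def roughCount {k : ℕ} (n : Fin k → ℕ) (z : ℕ) (M : Set ℕ) (y₁ y₂ : ℕ) : ℕ :=
  ((Ioc y₁ y₂).filter (fun q : ℕ => q.Prime ∧ q ∈ M ∧
    ∀ i, ∀ p : ℕ, p.Prime → p ≤ z → ¬ (p : ℤ) ∣ 2 * n i - q)).card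

/-- `∏_{p ≤ z} (1 - 1 / p)`, the density of the integers without prime factors `≤ z`. -/
noncomputable def V (z : ℕ) : ℝ := ∏ p ∈ (Icc 1 z).filter Nat.Prime, (1 - 1 / (p : ℝ))

/-- The even numbers `2 n 1, ..., 2 n k` are good: for every one of the sets `𝒩 j` and every window `y₁ < q ≤ y₂` with
`y₂ ≤ B N` and `y₂ ≤ 2 n i` for all `i`, which contains at least `N / log ^ K N` primes `q` of `𝒩 j` such that
all `2 n i - q` have no prime factor `≤ z`, the proportion of these primes for which all the `2 n i - q` are primes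
different from `q` is `1 / (V z log N) ^ k`, up to a relative error of at most `ε`. -/
def Good (ε : ℝ) (K B N z : ℕ) {k l : ℕ} (𝒩 : Fin l → Set ℕ) (n : Fin k → ℕ) : Prop :=
  ∀ j : Fin l, ∀ y₁ y₂ : ℕ, y₁ ≤ y₂ → y₂ ≤ B * N → (∀ i, y₂ ≤ 2 * n i) →
    (N : ℝ) / Real.log N ^ K ≤ roughCount n z (𝒩 j) y₁ y₂ →
    |(primeCount n (𝒩 j) y₁ y₂ : ℝ) - roughCount n z (𝒩 j) y₁ y₂ / (V z * Real.log N) ^ k| ≤
      ε * (roughCount n z (𝒩 j) y₁ y₂ / (V z * Real.log N) ^ k)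

open Classical in
/-- The number of the vectors `m` in the box `1 ≤ m i ≤ x i` for which not all vectors `n` of natural numbers with
`|2 n i - r i (m i)| ≤ w` for all `i` have the property `G`. -/
noncomputable def exceptions {k : ℕ} (x : Fin k → ℕ) (r : Fin k → ℕ → ℝ) (w : ℝ) (G : (Fin k → ℕ) → Prop) : ℕ :=
  ((Fintype.piFinset fun i => Icc 1 (x i)).filter
    (fun m => ∃ n : Fin k → ℕ, (∀ i, |2 * (n i : ℝ) - r i (m i)| ≤ w) ∧ ¬ G n)).card

/-- The bound at scale `N`: for any `l ≤ log ^ T N` sets `𝒩 j`, for all the vectors `m` with at most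
`(∏ x i) / log ^ U N` exceptions all the vectors of even numbers in the windows around the `r i (m i)` are good. -/
def Holds (ε : ℝ) (A B K T U N z : ℕ) {k : ℕ} (x : Fin k → ℕ) (r : Fin k → ℕ → ℝ) : Prop :=
  ∀ l : ℕ, (l : ℝ) ≤ Real.log N ^ T → ∀ 𝒩 : Fin l → Set ℕ,
    (exceptions x r (Real.log N ^ A) (Good ε K B N z 𝒩) : ℝ) ≤ (∏ i, (x i : ℝ)) / Real.log N ^ U

/-- The sequences: `κ P(m)` for a nonconstant polynomial `P` with integer coefficients, of degree `e`, and a real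
number `κ ≠ 0`; or `∑ w_y m ^ y`, a sum over a finite set `F` of real exponents with the largest element `e`, where
`e > 1` is not an integer and `w_e ≠ 0`. -/
def IsSeq (f : ℕ → ℝ) (e : ℝ) : Prop :=
  (∃ P : Polynomial ℤ, 1 ≤ P.natDegree ∧ e = P.natDegree ∧
    ∃ κ : ℝ, κ ≠ 0 ∧ ∀ m : ℕ, f m = κ * ((P.eval (m : ℤ) : ℤ) : ℝ)) ∨
  (∃ (F : Finset ℝ) (w : ℝ → ℝ), e ∈ F ∧ (∀ y ∈ F, y ≤ e) ∧ w e ≠ 0 ∧ 1 < e ∧ (∀ k : ℕ, e ≠ k) ∧
    ∀ m : ℕ, f m = ∑ y ∈ F, w y * (m : ℝ) ^ y)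

open Pool.Agent.TH935.TG
open Pool.Agent.H373R2.T7 (pz mem_pz Vz ev_L')

lemma seq_base {f : ℕ → ℝ} {e : ℝ} (h : IsSeq f e) : Pool.Agent.Q56.TF.Base f e ∧ 1 ≤ e := by
  rcases h with ⟨P, hP, rfl, κ, hκ, hf⟩ | ⟨F, w, h1, h2, h3, h4, h5, hf⟩
  · have e1 : f = fun m : ℕ => κ * ((P.eval (m : ℤ) : ℤ) : ℝ) := funext hf
    rw [e1]
    exact ⟨(Pool.Agent.Q56.TF.base_poly P hP).dil hκ, by exact_mod_cast hP⟩
  · have e1 : f = fun m : ℕ => ∑ y ∈ F, w y * (m : ℝ) ^ y := funext hf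
    rw [e1]
    exact ⟨Pool.Agent.Q56.TF.base_gp F w e h1 h2 h3 h4 h5, h4.le⟩

/-- the vector `2 n` -/
def dbl {k : ℕ} (n : Fin k → ℕ) : Fin k → ℤ := fun i => 2 * (n i : ℤ)

open Classical in
lemma rough_eq {k : ℕ} (n : Fin k → ℕ) (z : ℕ) (M : Set ℕ) (Y y₁ y₂ : ℕ) (hY : y₂ ≤ Y) :
    roughCount n z M y₁ y₂ =
      rgM (fun _ => -1) (dbl n) z (win ((Ioc 0 Y).filter (fun q => q.Prime ∧ q ∈ M)) y₁ y₂) := by
  unfold roughCount rgM win
  rw [filter_filter, filter_filter]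
  congr 1
  ext q
  rw [mem_filter, mem_filter, mem_Ioc, mem_Ioc]
  have e : ∀ i, -1 * (q : ℤ) + dbl n i = 2 * (n i : ℤ) - q := fun i => by unfold dbl; ring
  constructor
  · rintro ⟨⟨h1, h2⟩, h3, h4, h5⟩
    exact ⟨⟨by omega, by omega⟩, ⟨h3, h4⟩, ⟨h1, h2⟩,
      fun i p hp => by rw [e]; exact h5 i p (mem_pz.1 hp).2 (mem_pz.1 hp).1⟩
  · rintro ⟨_, ⟨h3, h4⟩, ⟨h1, h2⟩, h5⟩
    refine ⟨⟨h1, h2⟩, h3, h4, fun i p hp1 hp2 => ?_⟩
    have h6 := h5 i p (mem_pz.2 ⟨hp2, hp1⟩)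
    rw [e] at h6
    exact h6

open Classical in
lemma prime_near {k : ℕ} (n : Fin k → ℕ) (M : Set ℕ) (Y y₁ y₂ : ℕ) (hY : y₂ ≤ Y) (hn : ∀ i, y₂ ≤ 2 * n i) :
    primeCount n M y₁ y₂ ≤ cnM (fun _ => -1) (dbl n) (win ((Ioc 0 Y).filter (fun q => q.Prime ∧ q ∈ M)) y₁ y₂) ∧
    cnM (fun _ => -1) (dbl n) (win ((Ioc 0 Y).filter (fun q => q.Prime ∧ q ∈ M)) y₁ y₂) ≤
      primeCount n M y₁ y₂ + k := by
  unfold primeCount cnM win
  rw [filter_filter, filter_filter]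
  have e : ∀ (q : ℕ) (i : Fin k), q ≤ y₂ → (-1 * (q : ℤ) + dbl n i).natAbs = 2 * n i - q := by
    intro q i hq
    have := hn i
    unfold dbl
    omega
  constructor
  · apply card_le_card
    intro q hq
    rw [mem_filter, mem_Ioc] at hq
    obtain ⟨⟨h1, h2⟩, h3, h4, h5⟩ := hq
    rw [mem_filter, mem_Ioc]
    refine ⟨⟨by omega, by omega⟩, ⟨h3, h4⟩, ⟨h1, h2⟩, fun i => ?_⟩
    rw [e q i h2]
    obtain ⟨p, hp, _, hpq⟩ := h5 i
    have : 2 * n i - q = p := by omega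
    rw [this]
    exact hp
  · have hsub : (Ioc 0 Y).filter (fun a => (a.Prime ∧ a ∈ M) ∧ (y₁ < a ∧ a ≤ y₂) ∧
        ∀ i, ((-1) * (a : ℤ) + dbl n i).natAbs.Prime) ⊆
        (Ioc y₁ y₂).filter (fun q : ℕ => q.Prime ∧ q ∈ M ∧ ∀ i, ∃ p : ℕ, p.Prime ∧ p ≠ q ∧ p + q = 2 * n i) ∪
          univ.image n := by
      intro q hq
      rw [mem_filter, mem_Ioc] at hq
      obtain ⟨_, ⟨h3, h4⟩, ⟨h1, h2⟩, h5⟩ := hq
      rw [mem_union]
      by_cases hq : q ∈ univ.image n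
      · exact Or.inr hq
      · left
        rw [mem_filter, mem_Ioc]
        refine ⟨⟨h1, h2⟩, h3, h4, fun i => ⟨2 * n i - q, ?_, ?_, ?_⟩⟩
        · rw [← e q i h2]
          exact h5 i
        · intro h6
          apply hq
          rw [mem_image]
          have := hn i
          exact ⟨i, mem_univ _, by omega⟩
        · have := hn i
          omega
    refine (card_le_card hsub).trans ((card_union_le _ _).trans ?_)
    apply Nat.add_le_add_left
    refine card_image_le.trans ?_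
    rw [card_univ, Fintype.card_fin]

open Classical in
lemma good_of (k K : ℕ) (ε : ℝ) (hε : 0 < ε) : ∃ N₀ : ℕ, ∀ N : ℕ, N₀ ≤ N → ∀ (B B' z l : ℕ), B ≤ B' →
    ∀ (𝒩 : Fin l → Set ℕ) (n : Fin k → ℕ),
    HB (ε / 2) K 0 B' N z (fun j : Fin l => (Ioc 0 (B' * N)).filter (fun q => q.Prime ∧ q ∈ 𝒩 j)) (dbl n) →
    Good ε K B N z 𝒩 n := by
  obtain ⟨N₁, h1⟩ := Pool.Agent.H373R2.T7.ev_log' (K + k) (2 * k / ε)
  obtain ⟨N₂, h2⟩ := ev_L' 1
  refine ⟨N₁ + N₂ + 1, fun N hN B B' z l hB 𝒩 n h j y₁ y₂ h12 hy2 hn hR => ?_⟩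
  have hy3 : y₂ ≤ B' * N := hy2.trans (Nat.mul_le_mul_right _ hB)
  have hL1 : 1 ≤ Real.log N := h2 N (by omega)
  have hN1 : (1 : ℝ) ≤ N := by exact_mod_cast (by omega : 1 ≤ N)
  have h3 := h (fun _ => -1) (fun _ => by norm_num) (fun _ => by simp) j y₁ y₂ h12 hy3
  have h4 := prime_near n (𝒩 j) (B' * N) y₁ y₂ hy3 hn
  rw [rough_eq n z (𝒩 j) (B' * N) y₁ y₂ hy3] at hR ⊢
  have h5 := h3 hR
  clear h3
  have e1 : V z = Vz z := rfl
  rw [e1]
  obtain ⟨R, hRe⟩ : ∃ R : ℝ, R = (rgM (fun _ : Fin k => -1) (dbl n) z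
    (win ((Ioc 0 (B' * N)).filter (fun q => q.Prime ∧ q ∈ 𝒩 j)) y₁ y₂) : ℝ) := ⟨_, rfl⟩
  obtain ⟨c, hc⟩ : ∃ c : ℕ, c = cnM (fun _ : Fin k => -1) (dbl n)
    (win ((Ioc 0 (B' * N)).filter (fun q => q.Prime ∧ q ∈ 𝒩 j)) y₁ y₂) := ⟨_, rfl⟩
  rw [← hRe] at hR h5 ⊢
  rw [← hc] at h4 h5
  have hV0 := Pool.Agent.H373R2.T7.Vz_pos z
  have hV1 := Pool.Agent.H373R2.T7.Vz_le_one z
  have hL0 : 0 < Real.log N := by linarith
  have h6 : (Vz z * Real.log N) ^ k ≤ Real.log N ^ k := by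
    apply pow_le_pow_left₀ (by positivity)
    nlinarith
  have h7 : N / Real.log N ^ (K + k) ≤ R / (Vz z * Real.log N) ^ k := by
    rw [pow_add, ← div_div]
    apply div_le_div₀ ((by positivity : (0 : ℝ) ≤ N / Real.log N ^ K).trans hR) hR (by positivity) h6
  have h8 : (k : ℝ) ≤ ε / 2 * (N / Real.log N ^ (K + k)) := by
    have h9 := h1 N (by omega)
    have h10 : √(N : ℝ) ≤ N := by
      rw [Real.sqrt_le_left (by linarith)]
      nlinarith
    have h11 : 2 * k / ε * Real.log N ^ (K + k) ≤ N := h9.trans h10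
    rw [mul_div_assoc', le_div_iff₀ (by positivity)]
    calc (k : ℝ) * Real.log N ^ (K + k) = ε / 2 * (2 * k / ε * Real.log N ^ (K + k)) := by field_simp
      _ ≤ ε / 2 * N := by gcongr
  have h9 : (k : ℝ) ≤ ε / 2 * (R / (Vz z * Real.log N) ^ k) :=
    h8.trans (mul_le_mul_of_nonneg_left h7 (by positivity))
  have h10 : (primeCount n (𝒩 j) y₁ y₂ : ℝ) ≤ c := by exact_mod_cast h4.1
  have h11 : (c : ℝ) ≤ primeCount n (𝒩 j) y₁ y₂ + k := by exact_mod_cast h4.2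
  rw [abs_le] at h5 ⊢
  constructor <;> linarith

open Classical in
lemma holds_of (k p A B B' C T U K : ℕ) (hk : 1 ≤ k) (hB : B ≤ B') (ε : ℝ) (hε : 0 < ε) :
    ∃ E₀ : ℕ, ∀ E : ℕ, E₀ ≤ E → ∃ N₀ : ℕ, ∀ N : ℕ, N₀ ≤ N → ∀ (x : Fin k → ℕ) (r : Fin k → ℕ → ℝ),
      (∀ i, Pool.Agent.Q56.TF.Flo p B' C N (x i) (r i)) → Holds ε A B K T U N ⌊Real.log N ^ E⌋₊ x r := by
  obtain ⟨E₀, h0⟩ := Pool.Agent.TH935.TG.fam_win k p (B' + 1) C 0 T (U + (A + 1) * k) K hk (ε / 2) (by positivity)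
  refine ⟨E₀, fun E hE => ?_⟩
  obtain ⟨N₁, h1⟩ := h0 E hE
  obtain ⟨N₂, h2⟩ := Pool.Agent.Q56.TF.vec k A B' C p U
  obtain ⟨N₃, h3⟩ := good_of k K ε hε
  refine ⟨N₁ + N₂ + N₃, fun N hN x r hr l hl 𝒩 => ?_⟩
  refine h2 N (by omega) x r hr (fun a => ¬ HB (ε / 2) K 0 (B' + 1) N ⌊Real.log N ^ E⌋₊
    (fun j : Fin l => (Ioc 0 ((B' + 1) * N)).filter (fun q => q.Prime ∧ q ∈ 𝒩 j)) a) ?_ _ (filter_subset _ _) ?_
  · intro s hs hE 𝒮 h𝒮 hb
    exact h1 N (by omega) (Fin l) (by rw [Fintype.card_fin]; exact hl)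
      (fun j : Fin l => (Ioc 0 ((B' + 1) * N)).filter (fun q => q.Prime ∧ q ∈ 𝒩 j))
      (fun j => filter_subset _ _) x s hs hE 𝒮 h𝒮 hb
  · intro q hq
    obtain ⟨_, n, ha1, ha2⟩ := mem_filter.1 hq
    exact ⟨dbl n, fun i => by unfold dbl; push_cast; exact ha1 i,
      fun h => ha2 (h3 N (by omega) B (B' + 1) _ l (by omega) 𝒩 n h)⟩

/-- Let `k ≥ 1`, `A`, `B`, `C`, `K`, `T`, `U` and `ε > 0` be fixed.

* For every `p` the following holds if `E` is large and `N` is large in terms of `E`; put `z = ⌊log ^ E N⌋`. For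
  `i = 1, ..., k` let `r i 1, ..., r i (x i)` be an arbitrary family of real numbers in `[-B N, B N]` with an energy
  of order `p` of at most `log ^ C N` times `(x i) ^ (2 p) / N` (the minimal possible order of magnitude). Let
  `𝒩 j`, `j ≤ l`, be arbitrary sets, `l ≤ log ^ T N`. For all vectors `m` in the box `1 ≤ m i ≤ x i`, with at most
  `(∏ x i) / log ^ U N` exceptions, ALL even numbers `2 n 1, ..., 2 n k` with `|2 n i - r i (m i)| ≤ log ^ A N` for all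
  `i` satisfy, simultaneously for all the sets `𝒩 j` and all windows `(y₁, y₂]` with `y₂ ≤ B N` and `y₂ ≤ 2 n i`: if
  `R` is the number of the primes `q` of `𝒩 j` in the window for which the `2 n i - q` have no prime factor `≤ z`, and
  `R ≥ N / log ^ K N`, then the number of the primes `q` of `𝒩 j` in the window for which every `2 n i` is the sum of
  `q` and of a prime `p ≠ q` is `(1 + O(ε)) R / (V z log N) ^ k`.
* This holds for `r i m = β i + f i m`, where each `f i` is one of the sequences `IsSeq` with the exponent `e i`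
  (`κ P(m)` with a polynomial `P` of degree `e i`, or `∑ w_y m ^ y` with the largest exponent `e i`), the `β i` are
  any real numbers with `|β i| ≤ B N`, and `N / log ^ C N ≤ (x i) ^ (e i) ≤ B N`. -/
theorem result (k A B C K T U : ℕ) (hk : 1 ≤ k) (ε : ℝ) (hε : 0 < ε) :
    (∀ p : ℕ, ∃ E₀ : ℕ, ∀ E : ℕ, E₀ ≤ E → ∃ N₀ : ℕ, ∀ N : ℕ, N₀ ≤ N →
      ∀ (x : Fin k → ℕ) (r : Fin k → ℕ → ℝ), (∀ i, ∀ m ∈ Icc 1 (x i), |r i m| ≤ B * N) →
      (∀ i, (energy p (x i) (r i) : ℝ) * N ≤ Real.log N ^ C * (x i : ℝ) ^ (2 * p)) →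
      Holds ε A B K T U N ⌊Real.log N ^ E⌋₊ x r) ∧
    (∀ (f : Fin k → ℕ → ℝ) (e : Fin k → ℝ), (∀ i, IsSeq (f i) (e i)) →
      ∃ E₀ : ℕ, ∀ E : ℕ, E₀ ≤ E → ∃ N₀ : ℕ, ∀ N : ℕ, N₀ ≤ N → ∀ x : Fin k → ℕ,
      (∀ i, (x i : ℝ) ^ (e i) ≤ B * N) → (∀ i, (N : ℝ) ≤ Real.log N ^ C * (x i : ℝ) ^ (e i)) →
      ∀ β : Fin k → ℝ, (∀ i, |β i| ≤ B * N) →
      Holds ε A B K T U N ⌊Real.log N ^ E⌋₊ x (fun i m => β i + f i m)) := by
  classical
  refine ⟨fun p => ?_, fun f e hf => ?_⟩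
  · obtain ⟨N₁, h1⟩ := Pool.Agent.Q56.TF.flo_of p B C
    obtain ⟨E₀, h2⟩ := holds_of k p A B (B + 1) (C + 1) T U K hk (by omega) ε hε
    refine ⟨E₀, fun E hE => ?_⟩
    obtain ⟨N₂, h3⟩ := h2 E hE
    exact ⟨N₁ + N₂, fun N hN x r hr hen => h3 N (by omega) x r fun i => h1 N (by omega) (x i) (r i) (hr i) (hen i)⟩
  · obtain ⟨p, B', C', N₁, h1⟩ := Pool.Agent.Q56.TF.flo_vec f e (fun i => (seq_base (hf i)).1)
      (fun i => (seq_base (hf i)).2) B C
    obtain ⟨N₃, h4⟩ := Pool.Agent.H373R2.T7.ev_L' 1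
    obtain ⟨E₀, h2⟩ := holds_of k p A B (B + B') C' T U K hk (by omega) ε hε
    refine ⟨E₀, fun E hE => ?_⟩
    obtain ⟨N₂, h3⟩ := h2 E hE
    exact ⟨N₁ + N₂ + N₃, fun N hN x hx1 hx2 β hβ => h3 N (by omega) x _ fun i =>
      (h1 N (by omega) x hx1 hx2 β hβ i).mono le_rfl (by omega) le_rfl (by exact_mod_cast h4 N (by omega))⟩

end Pool.Agent.Results.MP_7b7e48_nt.SummandsFromArbitrarySets
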